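import Mathlib

/-!
# Linear search with a turning cost: the value is smaller than `9 + 2 d` for every `d > 4`

A trajectory is a sequence `x` of positive reals; the searcher starts at `0` at time `0`, moves with
unit speed, makes its `i`-th turn at `(-1)^i x_i` and pays an extra time `d` for each turn.
`searchTime d x H` is the first time at which the searcher is at `H`, and
`Vbar d` is the infimum over trajectories of the supremum over all hiding distributions with
`E |H| ≤ 1` of the expected search time.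

With `u = √d` the trajectory `x_i = (u (u + 2) 2^i - u^2) / 2` satisfies
`searchTime ≤ (d + 2 u) + (5 + 2 u) |H|` as soon as `u ≥ 2`, whence
`Vbar d ≤ d + 4 √d + 5`, and this is smaller than `9 + 2 d` for `d > 4`.
-/

namespace Pool.Agent.Results.MP_5c5fd6_lc.TurningCost

open MeasureTheory

/-- The `i`-th turning point `(-1)^i x_i`. -/
noncomputable def turn (x : ℕ → ℝ) (i : ℕ) : ℝ := (-1) ^ i * x i

/-- The time at which the searcher arrives at the `i`-th turning point: the distance travelled plus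
`d` for each of the `i` turns completed before. -/
noncomputable def arrival (d : ℝ) (x : ℕ → ℝ) : ℕ → ℝ
  | 0 => x 0
  | i + 1 => arrival d x i + d + (x i + x (i + 1))

/-- `VisitsAt d x H t`: the searcher is at the point `H` at time `t`, on its way from `0` to the
first turning point, or on its way from the `i`-th to the `(i+1)`-st turning point. -/
def VisitsAt (d : ℝ) (x : ℕ → ℝ) (H t : ℝ) : Prop :=
  (H ∈ Set.Icc 0 (x 0) ∧ t = H) ∨
    ∃ i, H ∈ Set.uIcc (turn x i) (turn x (i + 1)) ∧ t = arrival d x i + d + |H - turn x i|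

/-- The first time at which the searcher is at `H` (`∞` if `H` is never reached). -/
noncomputable def searchTime (d : ℝ) (x : ℕ → ℝ) (H : ℝ) : ENNReal :=
  ⨅ (t : ℝ) (_ : VisitsAt d x H t), ENNReal.ofReal t

/-- The worst expected search time of the trajectory `x` over all probability distributions `h` of
the hider with `E_h |H| ≤ 1`. -/
noncomputable def worst (d : ℝ) (x : ℕ → ℝ) : ENNReal :=
  ⨆ (h : Measure ℝ) (_ : IsProbabilityMeasure h) (_ : ∫⁻ H, ENNReal.ofReal |H| ∂h ≤ 1),
    ∫⁻ H, searchTime d x H ∂h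

/-- The minimax value `V̄(d)`. -/
noncomputable def Vbar (d : ℝ) : ENNReal :=
  ⨅ (x : ℕ → ℝ) (_ : ∀ i, 0 < x i), worst d x

/-- The trajectory used for the upper bound; `u = √d`. -/
noncomputable def traj (u : ℝ) (i : ℕ) : ℝ := (u * (u + 2) * 2 ^ i - u ^ 2) / 2

theorem traj_pos {u : ℝ} (hu : 2 ≤ u) (i : ℕ) : 0 < traj u i := by
  have h1 : (1 : ℝ) ≤ 2 ^ i := one_le_pow₀ (by norm_num)
  unfold traj
  have : u * (u + 2) * 1 ≤ u * (u + 2) * 2 ^ i :=
    mul_le_mul_of_nonneg_left h1 (by positivity)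
  nlinarith

theorem arrival_traj (u : ℝ) (i : ℕ) :
    arrival (u ^ 2) (traj u) i + u ^ 2 + traj u i = u * (u + 2) * (2 ^ (i + 1) - 1) := by
  induction i with
  | zero => simp [arrival, traj]; ring
  | succ n ih =>
    have h : arrival (u ^ 2) (traj u) (n + 1) + u ^ 2 + traj u (n + 1) =
        (arrival (u ^ 2) (traj u) n + u ^ 2 + traj u n) + u ^ 2 + 2 * traj u (n + 1) := by
      simp only [arrival]; ring
    rw [h, ih]
    simp only [traj, pow_succ]
    ring

/-- `H` lies on the side of the `n`-th turning point and not beyond it. -/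
def Covered (x : ℕ → ℝ) (H : ℝ) (n : ℕ) : Prop := 0 ≤ (-1) ^ n * H ∧ (-1) ^ n * H ≤ x n

theorem neg_one_pow_sq (n : ℕ) : ((-1 : ℝ) ^ n) * (-1) ^ n = 1 := by
  rw [← mul_pow]; norm_num

theorem abs_of_side {H : ℝ} {n : ℕ} (h : 0 ≤ (-1) ^ n * H) : (-1) ^ n * H = |H| := by
  rw [← abs_of_nonneg h, abs_mul, abs_pow, abs_neg, abs_one, one_pow, one_mul]

theorem traj_tendsto {u : ℝ} (hu : 2 ≤ u) (B : ℝ) : ∃ N, ∀ n, N ≤ n → B ≤ traj u n := by
  obtain ⟨N, hN⟩ := pow_unbounded_of_one_lt (2 * |B| + u ^ 2) (show (1 : ℝ) < 2 by norm_num)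
  refine ⟨N, fun n hn => ?_⟩
  have h1 : (2 : ℝ) ^ N ≤ 2 ^ n := pow_le_pow_right₀ (by norm_num) hn
  unfold traj
  have h2 : (1 : ℝ) ≤ u * (u + 2) := by nlinarith
  have h3 : (2 : ℝ) ^ n ≤ u * (u + 2) * 2 ^ n := by
    have : (0 : ℝ) < 2 ^ n := by positivity
    nlinarith
  have := le_abs_self B
  linarith

theorem exists_covered {u : ℝ} (hu : 2 ≤ u) (H : ℝ) : ∃ n, Covered (traj u) H n := by
  obtain ⟨N, hN⟩ := traj_tendsto hu |H|
  rcases le_total 0 H with h | h
  · refine ⟨2 * N, ?_, ?_⟩
    · simpa [pow_mul] using h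
    · have := hN (2 * N) (by omega)
      simp only [pow_mul, even_two, Even.neg_pow, one_pow, one_mul]
      exact (le_abs_self H).trans this
  · refine ⟨2 * N + 1, ?_, ?_⟩
    · simp only [pow_succ, pow_mul]; norm_num; exact h
    · have := hN (2 * N + 1) (by omega)
      simp only [pow_succ, pow_mul]; norm_num
      exact (neg_le_abs H).trans this

theorem visits_of_covered {d : ℝ} {x : ℕ → ℝ} (hx : ∀ i, 0 < x i) {H : ℝ} {n : ℕ}
    (h : Covered x H (n + 1)) :
    VisitsAt d x H (arrival d x n + d + (x n + |H|)) := by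
  right
  refine ⟨n, ?_, ?_⟩
  · obtain ⟨h1, h2⟩ := h
    rcases Nat.even_or_odd n with he | ho
    · have e1 : (-1 : ℝ) ^ n = 1 := he.neg_one_pow
      have e2 : (-1 : ℝ) ^ (n + 1) = -1 := (he.add_one).neg_one_pow
      rw [e2] at h1 h2
      rw [Set.uIcc_comm, Set.mem_uIcc]
      left
      unfold turn
      rw [e1, e2]
      have := hx n
      constructor <;> linarith
    · have e1 : (-1 : ℝ) ^ n = -1 := ho.neg_one_pow
      have e2 : (-1 : ℝ) ^ (n + 1) = 1 := (ho.add_one).neg_one_pow
      rw [e2] at h1 h2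
      rw [Set.mem_uIcc]
      left
      unfold turn
      rw [e1, e2]
      have := hx n
      constructor <;> linarith
  · congr 1
    have h1 := h.1
    have e : H - turn x n = -((-1) ^ n * (x n + |H|)) := by
      have h3 : |H| = (-1) ^ (n + 1) * H := (abs_of_side h1).symm
      have h4 := neg_one_pow_sq n
      unfold turn
      rw [h3, pow_succ]
      have : (-1 : ℝ) ^ n * ((-1) ^ n * -1 * H) = -H := by
        have : (-1 : ℝ) ^ n * ((-1) ^ n * -1 * H) = -(((-1 : ℝ) ^ n * (-1) ^ n) * H) := by ring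
        rw [this, h4, one_mul]
      rw [mul_add, this]
      ring
    have hpos : 0 ≤ x n + |H| := by
      have := hx n
      have := abs_nonneg H
      linarith
    rw [e, abs_neg, abs_mul, abs_pow, abs_neg, abs_one, one_pow, one_mul, abs_of_nonneg hpos]

theorem searchTime_le {u : ℝ} (hu : 2 ≤ u) (H : ℝ) :
    searchTime (u ^ 2) (traj u) H ≤ ENNReal.ofReal (u * (u + 2) + (5 + 2 * u) * |H|) := by
  classical
  have hex := exists_covered hu H
  set n := Nat.find hex with hn
  have hcov : Covered (traj u) H n := Nat.find_spec hex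
  have hmin : ∀ m, m < n → ¬ Covered (traj u) H m := fun m hm => Nat.find_min hex hm
  have habs := abs_nonneg H
  have hmain : ∃ t, VisitsAt (u ^ 2) (traj u) H t ∧ t ≤ u * (u + 2) + (5 + 2 * u) * |H| := by
    rcases hcase : n with _ | m
    · rw [hcase] at hcov
      obtain ⟨h1, h2⟩ := hcov
      simp only [pow_zero, one_mul] at h1 h2
      refine ⟨H, Or.inl ⟨⟨h1, h2⟩, rfl⟩, ?_⟩
      rw [abs_of_nonneg h1]
      nlinarith
    · rw [hcase] at hcov
      refine ⟨_, visits_of_covered (fun i => traj_pos hu i) hcov, ?_⟩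
      have harr := arrival_traj u m
      have hsum : arrival (u ^ 2) (traj u) m + u ^ 2 + (traj u m + |H|) =
          u * (u + 2) * (2 ^ (m + 1) - 1) + |H| := by rw [← harr]; ring
      rw [hsum]
      rcases hm : m with _ | k
      · simp only [zero_add, pow_one]
        nlinarith
      · -- `m = k + 1`, `n = k + 2`, so `traj u k < |H|`
        have hk : ¬ Covered (traj u) H k := hmin k (by omega)
        have hside : 0 ≤ (-1 : ℝ) ^ k * H := by
          have h1 := hcov.1
          rw [hm] at h1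
          have : (-1 : ℝ) ^ (k + 1 + 1) = (-1) ^ k := by ring
          rwa [this] at h1
        have hlt : traj u k < |H| := by
          by_contra hcon
          apply hk
          refine ⟨hside, ?_⟩
          rw [abs_of_side hside]
          exact not_lt.mp hcon
        have h1 : (1 : ℝ) ≤ 2 ^ k := one_le_pow₀ (by norm_num)
        have hp : (2 : ℝ) ^ (k + 1 + 1) = 4 * 2 ^ k := by ring
        rw [hp]
        unfold traj at hlt
        have h2 : 0 ≤ (u - 2) * (2 ^ k - 1) := mul_nonneg (by linarith) (by linarith)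
        have h3 : 0 ≤ u * (u + 2) * ((u - 2) * (2 ^ k - 1)) := by positivity
        nlinarith
  obtain ⟨t, ht, hle⟩ := hmain
  exact (iInf₂_le t ht).trans (ENNReal.ofReal_le_ofReal hle)

theorem worst_le {u : ℝ} (hu : 2 ≤ u) :
    worst (u ^ 2) (traj u) ≤ ENNReal.ofReal (u ^ 2 + 4 * u + 5) := by
  unfold worst
  refine iSup_le fun h => iSup_le fun hprob => iSup_le fun hmean => ?_
  calc ∫⁻ H, searchTime (u ^ 2) (traj u) H ∂h
      ≤ ∫⁻ H, (ENNReal.ofReal (u * (u + 2)) + ENNReal.ofReal (5 + 2 * u) * ENNReal.ofReal |H|) ∂h := by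
        refine lintegral_mono fun H => ?_
        refine (searchTime_le hu H).trans ?_
        rw [← ENNReal.ofReal_mul (by linarith), ← ENNReal.ofReal_add (by positivity) (by positivity)]
    _ = ENNReal.ofReal (u * (u + 2)) + ENNReal.ofReal (5 + 2 * u) * ∫⁻ H, ENNReal.ofReal |H| ∂h := by
        rw [lintegral_add_left measurable_const, lintegral_const, measure_univ, mul_one,
          lintegral_const_mul]
        exact (measurable_id.abs).ennreal_ofReal
    _ ≤ ENNReal.ofReal (u * (u + 2)) + ENNReal.ofReal (5 + 2 * u) * 1 := by gcongr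
    _ = ENNReal.ofReal (u ^ 2 + 4 * u + 5) := by
        rw [mul_one, ← ENNReal.ofReal_add (by positivity) (by positivity)]
        congr 1
        ring

/-- For every `d > 4` one has `V̄(d) ≤ d + 4 √d + 5 < 9 + 2 d`; in particular the assertion
`V̄(d) = 9 + 2 d for every d > 0` is false. -/
theorem result :
    (∀ d : ℝ, 4 ≤ d → Vbar d ≤ ENNReal.ofReal (d + 4 * Real.sqrt d + 5)) ∧
    (∀ d : ℝ, 4 < d → Vbar d < ENNReal.ofReal (9 + 2 * d)) := by
  have key : ∀ d : ℝ, 4 ≤ d → Vbar d ≤ ENNReal.ofReal (d + 4 * Real.sqrt d + 5) := by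
    intro d hd
    have hu : 2 ≤ Real.sqrt d := by
      rw [show (2 : ℝ) = Real.sqrt 4 by rw [show (4 : ℝ) = 2 ^ 2 by norm_num]; simp]
      exact Real.sqrt_le_sqrt hd
    have hsq : Real.sqrt d ^ 2 = d := Real.sq_sqrt (by linarith)
    have h := worst_le hu
    rw [hsq] at h
    unfold Vbar
    exact (iInf₂_le (traj (Real.sqrt d)) (fun i => traj_pos hu i)).trans h
  refine ⟨key, fun d hd => (key d hd.le).trans_lt ?_⟩
  have hu : 2 < Real.sqrt d := by
    rw [show (2 : ℝ) = Real.sqrt 4 by rw [show (4 : ℝ) = 2 ^ 2 by norm_num]; simp]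
    exact Real.sqrt_lt_sqrt (by norm_num) hd
  have hsq : Real.sqrt d ^ 2 = d := Real.sq_sqrt (by linarith)
  rw [ENNReal.ofReal_lt_ofReal_iff (by linarith)]
  nlinarith

end Pool.Agent.Results.MP_5c5fd6_lc.TurningCost
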